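import Pool.Agent.Q16.BF.Final
set_option autoImplicit false

/-!
Small tori on which finitely many polynomials are dominated by their lexicographically smallest
monomials.
-/

namespace Pool.Agent.Q16.UF

open Pool.Agent.Q16.BF

open Pool.Agent.TH826.MK

open Pool.Agent.TH826.SX (good_circ lw_circ)

open Pool.Agent.TH690.SF (good_pow lw_pow)

open Pool.Agent.TH333.CY (good_inv lw_inv)

section weight

/-- Weights for the lexicographic order. -/
theorem lex_weight (M : ℕ) : ∀ n : ℕ, ∃ w : Fin n → ℤ,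
    (∀ a : Fin n → ℕ, (∀ i, a i < M) → -(M : ℤ) ^ n < ∑ i, w i * (a i : ℤ) ∧
      ∑ i, w i * (a i : ℤ) ≤ 0) ∧
    ∀ a V : Fin n → ℕ, (∀ i, a i < M) → (∀ i, V i < M) →
      (∃ i, (∀ j < i, a j = V j) ∧ V i < a i) →
      ∑ i, w i * (a i : ℤ) + 1 ≤ ∑ i, w i * (V i : ℤ) := by
  intro n
  induction n with
  | zero => exact ⟨fun _ => 0, fun a _ => by simp, fun a V _ _ ⟨i, _⟩ => i.elim0⟩
  | succ n ih =>
    obtain ⟨w, h1, h2⟩ := ih
    refine ⟨Fin.cons (-(M : ℤ) ^ n) w, fun a ha => ?_, fun a V ha hV h => ?_⟩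
    · obtain ⟨h3, h4⟩ := h1 (fun i => a i.succ) fun i => ha i.succ
      rw [Fin.sum_univ_succ]
      simp only [Fin.cons_zero, Fin.cons_succ]
      have h5 : (0 : ℤ) ≤ (M : ℤ) ^ n := by positivity
      have h6 : (a 0 : ℤ) + 1 ≤ M := by exact_mod_cast ha 0
      have h7 : (0 : ℤ) ≤ a 0 := by positivity
      constructor
      · rw [pow_succ]
        nlinarith
      · nlinarith
    · obtain ⟨i, hi, hlt⟩ := h
      rw [Fin.sum_univ_succ, Fin.sum_univ_succ]
      simp only [Fin.cons_zero, Fin.cons_succ]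
      revert hi hlt
      refine Fin.cases (fun _ hlt => ?_) (fun i hi hlt => ?_) i
      · obtain ⟨h3, h4⟩ := h1 (fun i => a i.succ) fun i => ha i.succ
        obtain ⟨h5, h6⟩ := h1 (fun i => V i.succ) fun i => hV i.succ
        have h7 : (V 0 : ℤ) + 1 ≤ a 0 := by exact_mod_cast hlt
        have h8 : (0 : ℤ) ≤ (M : ℤ) ^ n := by positivity
        nlinarith
      · have h3 := h2 (fun i => a i.succ) (fun i => V i.succ) (fun i => ha i.succ)
          (fun i => hV i.succ) ⟨i, fun j hj => hi j.succ (Fin.succ_lt_succ_iff.2 hj), hlt⟩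
        have h4 : a 0 = V 0 := hi 0 (Fin.succ_pos i)
        rw [h4]
        linarith

variable {K : Type*} [Field K] {n : ℕ}

/-- `V` is the lexicographically smallest exponent of `q`. -/
def LexLead (q : MvPolynomial (Fin n) K) (V : Fin n →₀ ℕ) : Prop :=
  V ∈ q.support ∧ ∀ a ∈ q.support, a ≠ V → ∃ i, (∀ j < i, a j = V j) ∧ V i < a i

theorem exists_lexLead {q : MvPolynomial (Fin n) K} (hq : q ≠ 0) : ∃ V, LexLead q V := by
  classical
  have hne : q.support.Nonempty := by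
    rw [Finset.nonempty_iff_ne_empty, Ne, MvPolynomial.support_eq_empty]
    exact hq
  obtain ⟨V, hV, hmin⟩ := Finset.exists_min_image q.support
    (fun a => (toLex (a : Fin n → ℕ) : Lex (Fin n → ℕ))) hne
  refine ⟨V, hV, fun a ha hav => ?_⟩
  have h1 : (toLex (V : Fin n → ℕ) : Lex (Fin n → ℕ)) < toLex (a : Fin n → ℕ) := by
    refine lt_of_le_of_ne (hmin a ha) fun h => hav ?_
    exact (DFunLike.coe_injective (toLex.injective h)).symm
  obtain ⟨i, hi, hlt⟩ := h1
  exact ⟨i, fun j hj => (hi j hj).symm, hlt⟩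

end weight

section torus

variable {n : ℕ} {R : Fin n → ℝ}

/-- The monomials on the torus -/
noncomputable def mb (R : Fin n → ℝ) (a : Fin n → ℕ) (θ : Fin n → ℝ) : ℂ :=
  ∏ i, tpt R θ i ^ a i

theorem good_tpt (hR : ∀ i, 0 < R i) (i : Fin n) : Good fun θ => tpt R θ i :=
  good_circ (hR i) i

theorem good_mb (hR : ∀ i, 0 < R i) (a : Fin n → ℕ) : Good (mb R a) :=
  good_prod Finset.univ fun i => good_pow (good_tpt hR i) (a i)

theorem lw_mb (hR : ∀ i, 0 < R i) (a : Fin n → ℕ) (j : Fin n) (θ : Fin n → ℝ) :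
    lw (mb R a) j θ = 2 * Real.pi * Complex.I * ((a j : ℝ) : ℂ) := by
  have h1 : lw (mb R a) j θ = ∑ i, lw (fun θ => tpt R θ i ^ a i) j θ :=
    lw_prod Finset.univ (fun i => good_pow (good_tpt hR i) (a i)) j θ
  have h2 : ∀ i, lw (fun θ => tpt R θ i) j θ =
      if j = i then 2 * Real.pi * Complex.I else 0 := fun i => lw_circ (hR i) i j θ
  rw [h1]
  simp only [lw_pow (good_tpt hR _), h2]
  rw [Finset.sum_eq_single j]
  · rw [if_pos rfl]
    push_cast
    ring
  · intro i _ hi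
    rw [if_neg (Ne.symm hi), mul_zero]
  · intro h
    exact absurd (Finset.mem_univ j) h

theorem norm_lw_mb (hR : ∀ i, 0 < R i) (a : Fin n → ℕ) (j : Fin n) (θ : Fin n → ℝ) :
    ‖lw (mb R a) j θ‖ ≤ 2 * Real.pi * ∑ i, (a i : ℝ) := by
  have hpi := Real.pi_pos
  rw [lw_mb hR, norm_mul, norm_two_pi_I, Complex.norm_real]
  refine mul_le_mul_of_nonneg_left ?_ (by positivity)
  rw [Real.norm_natCast]
  exact Finset.single_le_sum (f := fun i => (a i : ℝ)) (fun i _ => Nat.cast_nonneg _)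
    (Finset.mem_univ j)

variable {K : Type*} [Field K] (σ : K →+* ℂ)

/-- Finitely many polynomials are dominated by their lexicographically smallest monomials on some
tori. -/
theorem exists_lex {ι : Type*} [Finite ι] (A : ι → MvPolynomial (Fin n) K)
    (V : ι → Fin n →₀ ℕ) (hV : ∀ e, LexLead (A e) (V e)) {δ : ℝ} (hδ : 0 < δ) :
    ∃ R : Fin n → ℝ, (∀ i, 0 < R i) ∧ ∃ ε : ι → (Fin n → ℝ) → ℂ, (∀ e, Bdd1 (ε e) δ) ∧
      ∀ e θ, MvPolynomial.eval₂ σ (tpt R θ) (A e) =
        σ ((A e).coeff (V e)) * mb R (V e) θ * (1 + ε e θ) := by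
  classical
  cases nonempty_fintype ι
  obtain ⟨M, hM⟩ : ∃ M : ℕ, ∀ e, ∀ a ∈ (A e).support, ∀ i, a i < M := by
    refine ⟨∑ e, ∑ a ∈ (A e).support, ∑ i, a i + 1, fun e a ha i => ?_⟩
    have h1 : a i ≤ ∑ i, a i := Finset.single_le_sum (f := fun i => a i)
      (fun _ _ => Nat.zero_le _) (Finset.mem_univ i)
    have h2 : ∑ i, a i ≤ ∑ a ∈ (A e).support, ∑ i, a i :=
      Finset.single_le_sum (f := fun a : Fin n →₀ ℕ => ∑ i, a i) (fun _ _ => Nat.zero_le _) ha
    have h3 : ∑ a ∈ (A e).support, ∑ i, a i ≤ ∑ e, ∑ a ∈ (A e).support, ∑ i, a i :=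
      Finset.single_le_sum (f := fun e => ∑ a ∈ (A e).support, ∑ i, a i)
        (fun _ _ => Nat.zero_le _) (Finset.mem_univ e)
    omega
  obtain ⟨w, -, hw⟩ := lex_weight M n
  have hlt : ∀ e, ∀ a ∈ (A e).support, a ≠ V e →
      ∑ i, w i * (a i : ℤ) + 1 ≤ ∑ i, w i * (V e i : ℤ) := fun e a ha hav =>
    hw a (V e) (hM e a ha) (hM e _ (hV e).1) ((hV e).2 a ha hav)
  have hV0 : ∀ e, σ ((A e).coeff (V e)) ≠ 0 := fun e =>
    (map_ne_zero σ).2 (MvPolynomial.mem_support_iff.1 (hV e).1)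
  have hpi := Real.pi_pos
  set D : ι → (Fin n →₀ ℕ) → ℝ := fun e a =>
    2 * Real.pi * ∑ i, (a i : ℝ) + 2 * Real.pi * ∑ i, (V e i : ℝ) with hD
  have hD0 : ∀ e a, 0 ≤ D e a := fun e a => by
    have h1 : 0 ≤ ∑ i, (a i : ℝ) := Finset.sum_nonneg fun i _ => Nat.cast_nonneg _
    have h2 : 0 ≤ ∑ i, (V e i : ℝ) := Finset.sum_nonneg fun i _ => Nat.cast_nonneg _
    positivity
  set CE : ι → ℝ := fun e => ∑ a ∈ (A e).support.erase (V e),
    ‖σ ((A e).coeff a) / σ ((A e).coeff (V e))‖ * (D e a + 1) with hCE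
  have hCE0 : ∀ e, 0 ≤ CE e := fun e => Finset.sum_nonneg fun a _ => by
    have := hD0 e a
    positivity
  set CA : ℝ := ∑ e, CE e with hCA
  have hCEA : ∀ e, CE e ≤ CA := fun e =>
    Finset.single_le_sum (fun e _ => hCE0 e) (Finset.mem_univ e)
  have hCA0 : 0 ≤ CA := Finset.sum_nonneg fun e _ => hCE0 e
  set t : ℝ := (CA + 1) / δ with ht
  have ht0 : 0 < t := by positivity
  have hexp : Real.exp (-t) * CA ≤ δ := by
    have h1 : t + 1 ≤ Real.exp t := Real.add_one_le_exp t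
    have h2 : Real.exp (-t) * Real.exp t = 1 := by rw [← Real.exp_add, neg_add_cancel, Real.exp_zero]
    have h3 : 0 < Real.exp (-t) := Real.exp_pos _
    have h4 : t * δ = CA + 1 := by rw [ht]; field_simp
    have h5 : CA ≤ δ * Real.exp t := by nlinarith
    calc Real.exp (-t) * CA ≤ Real.exp (-t) * (δ * Real.exp t) :=
          mul_le_mul_of_nonneg_left h5 h3.le
      _ = δ * (Real.exp (-t) * Real.exp t) := by ring
      _ = δ := by rw [h2, mul_one]
  set R : Fin n → ℝ := fun i => Real.exp (t * w i) with hR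
  have hR0 : ∀ i, 0 < R i := fun i => Real.exp_pos _
  have hnorm : ∀ (a : Fin n →₀ ℕ) (θ : Fin n → ℝ),
      ‖mb R a θ‖ = Real.exp (t * ((∑ i, w i * (a i : ℤ) : ℤ) : ℝ)) := by
    intro a θ
    unfold mb
    rw [norm_prod]
    have h0 : ∀ i, ‖tpt R θ i‖ = R i := fun i => norm_circ (hR0 i).le _
    simp only [norm_pow, h0]
    rw [Int.cast_sum, Finset.mul_sum, Real.exp_sum]
    refine Finset.prod_congr rfl fun i _ => ?_
    rw [hR, ← Real.exp_nat_mul]
    congr 1
    push_cast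
    ring
  set N : ι → (Fin n →₀ ℕ) → (Fin n → ℝ) → ℂ := fun e a θ =>
    mb R a θ * (mb R (V e) θ)⁻¹ with hN
  have hNg : ∀ e a, Good (N e a) := fun e a => (good_mb hR0 a).mul (good_inv (good_mb hR0 (V e)))
  have hNb : ∀ e, ∀ a ∈ (A e).support.erase (V e),
      Bdd1 (N e a) (Real.exp (-t) * (D e a + 1)) := by
    intro e a ha
    obtain ⟨hav, ha⟩ := Finset.mem_erase.1 ha
    refine Bdd1.of_good (hNg e a) (hD0 e a) (fun θ => ?_) fun θ j => ?_
    · rw [hN, norm_mul, norm_inv, hnorm, hnorm, ← Real.exp_neg, ← Real.exp_add]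
      refine Real.exp_le_exp.2 ?_
      have h1 : ((∑ i, w i * (a i : ℤ) : ℤ) : ℝ) + 1 ≤ ((∑ i, w i * (V e i : ℤ) : ℤ) : ℝ) := by
        exact_mod_cast hlt e a ha hav
      nlinarith
    · have h1 : lw (N e a) j θ = lw (mb R a) j θ + lw (fun θ => (mb R (V e) θ)⁻¹) j θ :=
        lw_mul (good_mb hR0 a) (good_inv (good_mb hR0 (V e))) j θ
      rw [h1, lw_inv (good_mb hR0 (V e))]
      refine (norm_add_le _ _).trans ?_
      rw [norm_neg]
      exact add_le_add (norm_lw_mb hR0 a j θ) (norm_lw_mb hR0 (V e) j θ)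
  refine ⟨R, hR0, fun e θ => ∑ a ∈ (A e).support.erase (V e),
    (σ ((A e).coeff a) / σ ((A e).coeff (V e))) * N e a θ, fun e => ?_, fun e θ => ?_⟩
  · refine (Bdd1.sum _ fun a ha => (hNb e a ha).const_mul _).mono ?_
    refine le_trans (le_of_eq ?_) ((mul_le_mul_of_nonneg_left (hCEA e)
      (Real.exp_pos (-t)).le).trans hexp)
    rw [hCE, Finset.mul_sum]
    exact Finset.sum_congr rfl fun a _ => by ring
  · have hV1 : mb R (V e) θ ≠ 0 := (good_mb hR0 (V e)).ne_zero θ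
    have h1 : MvPolynomial.eval₂ σ (tpt R θ) (A e) =
        ∑ a ∈ (A e).support, σ ((A e).coeff a) * mb R a θ := by
      rw [MvPolynomial.eval₂_eq']
      rfl
    have h2 := hV0 e
    rw [h1, ← Finset.add_sum_erase _ _ (hV e).1, mul_add, mul_one, Finset.mul_sum]
    congr 1
    refine Finset.sum_congr rfl fun a _ => ?_
    rw [hN]
    field_simp

/-- The values of the polynomials on the torus -/
theorem exists_lex_torus {ι : Type*} [Finite ι] (A : ι → MvPolynomial (Fin n) K)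
    (V : ι → Fin n →₀ ℕ) (hV : ∀ e, LexLead (A e) (V e)) {δ : ℝ} (hδ : 0 < δ) :
    ∃ (R : Fin n → ℝ) (C1 : ℝ), (∀ i, 0 < R i) ∧ ∀ e,
      Good (fun θ => MvPolynomial.eval₂ σ (tpt R θ) (A e)) ∧
      (∀ θ, |Real.log ‖MvPolynomial.eval₂ σ (tpt R θ) (A e)‖| ≤ C1) ∧
      ∀ j θ, ‖lw (fun θ => MvPolynomial.eval₂ σ (tpt R θ) (A e)) j θ -
        2 * Real.pi * Complex.I * ((V e j : ℝ) : ℂ)‖ ≤ δ := by
  classical
  cases nonempty_fintype ι
  set δ' : ℝ := min (δ / 2) (1 / 2) with hδ'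
  have hδ0 : 0 < δ' := lt_min (by linarith) (by norm_num)
  obtain ⟨R, hR, ε, hε, heq⟩ := exists_lex σ A V hV hδ0
  have hV0 : ∀ e, σ ((A e).coeff (V e)) ≠ 0 := fun e =>
    (map_ne_zero σ).2 (MvPolynomial.mem_support_iff.1 (hV e).1)
  have hone := fun e => (hε e).one_add (min_le_right _ _)
  set B : ι → ℝ := fun e => |Real.log ‖σ ((A e).coeff (V e))‖| +
    ∑ i, (V e i : ℝ) * |Real.log (R i)| + 1 with hB
  have hB0 : ∀ e, 0 ≤ B e := fun e => by
    have : 0 ≤ ∑ i, (V e i : ℝ) * |Real.log (R i)| :=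
      Finset.sum_nonneg fun i _ => mul_nonneg (Nat.cast_nonneg _) (abs_nonneg _)
    positivity
  refine ⟨R, ∑ e, B e, hR, fun e => ?_⟩
  have hg1 : Good fun θ => σ ((A e).coeff (V e)) * mb R (V e) θ :=
    (good_const (hV0 e)).mul (good_mb hR (V e))
  have hg : Good fun θ => σ ((A e).coeff (V e)) * mb R (V e) θ * (1 + ε e θ) :=
    hg1.mul (hone e).1
  have hfun : (fun θ => MvPolynomial.eval₂ σ (tpt R θ) (A e)) =
      fun θ => σ ((A e).coeff (V e)) * mb R (V e) θ * (1 + ε e θ) := funext fun θ => heq e θ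
  refine ⟨by rw [hfun]; exact hg, fun θ => ?_, fun j θ => ?_⟩
  · refine le_trans ?_ (Finset.single_le_sum (fun e _ => hB0 e) (Finset.mem_univ e))
    rw [heq, norm_mul, Real.log_mul (norm_ne_zero_iff.2 (hg1.ne_zero θ))
      (norm_ne_zero_iff.2 ((hone e).1.ne_zero θ)), norm_mul,
      Real.log_mul (norm_ne_zero_iff.2 (hV0 e)) (norm_ne_zero_iff.2 ((good_mb hR (V e)).ne_zero θ))]
    refine (abs_add_le _ _).trans (add_le_add ((abs_add_le _ _).trans (add_le_add le_rfl ?_))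
      ((hone e).2.2.1 θ))
    unfold mb
    have h0 : ∀ i, ‖tpt R θ i‖ = R i := fun i => norm_circ (hR i).le _
    rw [norm_prod, Real.log_prod fun i _ => by
      rw [norm_pow, h0]
      exact pow_ne_zero _ (hR i).ne']
    refine (Finset.abs_sum_le_sum_abs _ _).trans (le_of_eq ?_)
    refine Finset.sum_congr rfl fun i _ => ?_
    rw [norm_pow, h0, Real.log_pow, abs_mul, abs_of_nonneg (Nat.cast_nonneg _)]
  · rw [hfun, lw_mul hg1 (hone e).1 j θ, lw_mul (good_const (hV0 e)) (good_mb hR (V e)) j θ,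
      lw_const, zero_add, lw_mb hR, add_sub_cancel_left]
    exact ((hone e).2.2.2 j θ).trans (by
      have := min_le_left (δ / 2) (1 / 2 : ℝ)
      rw [← hδ'] at this
      linarith)

end torus

section base

variable {K : Type*} [Field K] {n : ℕ}

/-- Base tori near a point, given by the lexicographically smallest monomials after a change of
coordinates `χ`. -/
theorem exists_base_lex {ι : Type*} [Finite ι] (σ : K →+* ℂ)
    (χ : MvPolynomial (Fin n) K →ₐ[K] MvPolynomial (Fin n) K) {φ : MvPolynomial (Fin n) K}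
    {o : Fin n →₀ ℕ} (ho : LexLead (χ φ) o) (num den : ι → Fin n → MvPolynomial (Fin n) K)
    (cst : ι → Fin n → K) (hc : ∀ i l, cst i l ≠ 0) (Vn Vd : ι → Fin n → Fin n →₀ ℕ)
    (hn : ∀ i l, LexLead (χ (num i l)) (Vn i l)) (hd : ∀ i l, LexLead (χ (den i l)) (Vd i l))
    {δ : ℝ} (hδ : 0 < δ) :
    ∃ C1 X, IsBaseTorus σ φ (fun i l x => σ (cst i l) *
        (MvPolynomial.eval₂ σ x (num i l) * (MvPolynomial.eval₂ σ x (den i l))⁻¹))
      (fun j => (o j : ℝ)) (fun i l j => (Vn i l j : ℝ) - (Vd i l j : ℝ)) δ C1 X := by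
  classical
  cases nonempty_fintype ι
  set J := Option (ι × Fin n × Bool) with hJ
  set A : J → MvPolynomial (Fin n) K := fun e => match e with
    | none => χ φ
    | some (i, l, true) => χ (num i l)
    | some (i, l, false) => χ (den i l) with hA
  set V : J → Fin n →₀ ℕ := fun e => match e with
    | none => o
    | some (i, l, true) => Vn i l
    | some (i, l, false) => Vd i l with hV
  have hAV : ∀ e, LexLead (A e) (V e) := by
    intro e
    rcases e with _ | ⟨i, l, _ | _⟩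
    · exact ho
    · exact hd i l
    · exact hn i l
  have hδ2 : 0 < δ / 2 := by linarith
  obtain ⟨R, C1, hR, h⟩ := exists_lex_torus σ A V hAV hδ2
  set X : (Fin n → ℝ) → (Fin n → ℂ) := fun θ i =>
    MvPolynomial.eval₂ σ (tpt R θ) (χ (MvPolynomial.X i)) with hX
  have hev : ∀ q θ, MvPolynomial.eval₂ σ (X θ) q = MvPolynomial.eval₂ σ (tpt R θ) (χ q) := by
    intro q θ
    have h2 : MvPolynomial.eval₂Hom σ (X θ) =
        (MvPolynomial.eval₂Hom σ (tpt R θ)).comp (χ : MvPolynomial (Fin n) K →+* _) := by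
      refine MvPolynomial.ringHom_ext (fun x => ?_) fun i => ?_
      · rw [MvPolynomial.eval₂Hom_C, RingHom.comp_apply, RingHom.coe_coe, ← MvPolynomial.algebraMap_eq,
          χ.commutes, MvPolynomial.algebraMap_eq, MvPolynomial.eval₂Hom_C]
      · rw [MvPolynomial.eval₂Hom_X', RingHom.comp_apply]
        rfl
    exact congrArg (fun F : MvPolynomial (Fin n) K →+* ℂ => F q) h2
  have hXc : ContDiff ℝ 2 X := by
    refine contDiff_pi.2 fun i => ?_
    have hmv : ∀ q : MvPolynomial (Fin n) K,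
        ContDiff ℝ 2 fun θ => MvPolynomial.eval₂ σ (tpt R θ) q := by
      intro q
      induction q using MvPolynomial.induction_on with
      | C c => simpa using contDiff_const
      | add p q hp hq => simpa using hp.add hq
      | mul_X p k hp => simpa using hp.mul (good_tpt hR k).smooth
    exact hmv _
  have hXp : ∀ θ i, X (θ + Pi.single i 1) = X θ := fun θ i => by
    simp only [hX, tpt_add_single]
  set G : ℝ := ∑ i : ι, ∑ l, |Real.log ‖σ (cst i l)‖| with hGdef
  have hG0 : 0 ≤ G := Finset.sum_nonneg fun S _ => Finset.sum_nonneg fun i _ => abs_nonneg _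
  have hGS : ∀ i l, |Real.log ‖σ (cst i l)‖| ≤ G := fun i l =>
    (Finset.single_le_sum (f := fun l => |Real.log ‖σ (cst i l)‖|)
      (fun l _ => abs_nonneg _) (Finset.mem_univ l)).trans
    (Finset.single_le_sum (f := fun i => ∑ l, |Real.log ‖σ (cst i l)‖|)
      (fun i _ => Finset.sum_nonneg fun l _ => abs_nonneg _) (Finset.mem_univ i))
  have hcc : ∀ i l, σ (cst i l) ≠ 0 := fun i l => (map_ne_zero σ).2 (hc i l)
  have hφ := h none
  have hN : ∀ i l, Good (fun θ => MvPolynomial.eval₂ σ (X θ) (num i l)) ∧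
      (∀ θ, |Real.log ‖MvPolynomial.eval₂ σ (X θ) (num i l)‖| ≤ C1) ∧
      ∀ j θ, ‖lw (fun θ => MvPolynomial.eval₂ σ (X θ) (num i l)) j θ -
        2 * Real.pi * Complex.I * ((Vn i l j : ℝ) : ℂ)‖ ≤ δ / 2 := by
    intro i l
    simp only [hev]
    exact h (some (i, l, true))
  have hDn : ∀ i l, Good (fun θ => MvPolynomial.eval₂ σ (X θ) (den i l)) ∧
      (∀ θ, |Real.log ‖MvPolynomial.eval₂ σ (X θ) (den i l)‖| ≤ C1) ∧
      ∀ j θ, ‖lw (fun θ => MvPolynomial.eval₂ σ (X θ) (den i l)) j θ -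
        2 * Real.pi * Complex.I * ((Vd i l j : ℝ) : ℂ)‖ ≤ δ / 2 := by
    intro i l
    simp only [hev]
    exact h (some (i, l, false))
  have hC1 : 0 ≤ C1 := (abs_nonneg _).trans (hφ.2.1 0)
  refine ⟨G + 2 * C1, X, ⟨hXc, hXp, ?_, fun θ => ?_, fun j θ => ?_, fun i l => ?_,
    fun i l θ => ?_, fun i l j θ => ?_⟩⟩
  · simp only [hev]
    exact hφ.1
  · rw [hev]
    exact (hφ.2.1 θ).trans (by linarith)
  · simp only [hev]
    exact (hφ.2.2 j θ).trans (by linarith)
  · exact (good_const (hcc i l)).mul ((hN i l).1.mul (good_inv (hDn i l).1))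
  · have h1 := (hN i l).1.ne_zero θ
    have h2 := (hDn i l).1.ne_zero θ
    rw [norm_mul, norm_mul, norm_inv, Real.log_mul (norm_ne_zero_iff.2 (hcc i l))
      (mul_ne_zero (norm_ne_zero_iff.2 h1) (inv_ne_zero (norm_ne_zero_iff.2 h2))),
      Real.log_mul (norm_ne_zero_iff.2 h1) (inv_ne_zero (norm_ne_zero_iff.2 h2)), Real.log_inv]
    have h3 := abs_le.1 (hGS i l)
    have h4 := abs_le.1 ((hN i l).2.1 θ)
    have h5 := abs_le.1 ((hDn i l).2.1 θ)
    rw [abs_le]
    constructor <;> linarith [h3.1, h3.2, h4.1, h4.2, h5.1, h5.2]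
  · have h1 : lw (fun θ => σ (cst i l) * (MvPolynomial.eval₂ σ (X θ) (num i l) *
        (MvPolynomial.eval₂ σ (X θ) (den i l))⁻¹)) j θ =
        lw (fun θ => MvPolynomial.eval₂ σ (X θ) (num i l)) j θ +
          -lw (fun θ => MvPolynomial.eval₂ σ (X θ) (den i l)) j θ := by
      rw [lw_mul (good_const (hcc i l)) ((hN i l).1.mul (good_inv (hDn i l).1)) j θ, lw_const,
        zero_add, lw_mul (hN i l).1 (good_inv (hDn i l).1) j θ, lw_inv (hDn i l).1]
    rw [h1]
    have h2 := (hN i l).2.2 j θ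
    have h3 := (hDn i l).2.2 j θ
    have e2 : lw (fun θ => MvPolynomial.eval₂ σ (X θ) (num i l)) j θ +
        -lw (fun θ => MvPolynomial.eval₂ σ (X θ) (den i l)) j θ -
        2 * Real.pi * Complex.I * (((Vn i l j : ℝ) - (Vd i l j : ℝ) : ℝ) : ℂ) =
        (lw (fun θ => MvPolynomial.eval₂ σ (X θ) (num i l)) j θ -
          2 * Real.pi * Complex.I * ((Vn i l j : ℝ) : ℂ)) -
        (lw (fun θ => MvPolynomial.eval₂ σ (X θ) (den i l)) j θ -
          2 * Real.pi * Complex.I * ((Vd i l j : ℝ) : ℂ)) := by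
      push_cast
      ring
    rw [e2]
    exact (norm_sub_le _ _).trans (by linarith)

end base

end Pool.Agent.Q16.UF
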