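import Pool.Agent.TH577.UA.Alg
import Pool.Agent.TH690.SF.Milnor
set_option autoImplicit false

/-!
The symbols of the bases of an arrangement at a valuation.
-/

namespace Pool.Agent.Q16.UF

open scoped WithZero

open Pool.Agent.TH826.MK (KQ symb Unramified unitPart)

open Pool.Agent.TH826.SX (symb_neg_on)

open Pool.Agent.TH826.EF (onePart mem_onePart_of_sum_lt)

open Pool.Agent.TH690.SF (mem_onePart_of_comp)

open Pool.Agent.TH826.GA (cm al be lf)

open Pool.Agent.TH577.UA (hi kap kap_eq kap_ne le_hi_of_al lf_eq X_eq UMod)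

section Milnor

variable {L : Type*} [Field L] {n : ℕ}

/-- If the entries on `J` are `z_k / z_0`, and `z_0 - ∑_{k ∈ J} z_k` is of smaller order than one of
the `z_k`, then the symbol lies in `onePart`. -/
theorem mem_onePart_of_block (v : Valuation L ℤᵐ⁰) (a : Fin n → Lˣ) (J : Finset (Fin n))
    (z : Fin n → Lˣ) (z0 : Lˣ) (ha : ∀ k ∈ J, a k = z k / z0) {l : Fin n} (hl : l ∈ J)
    (hsum : v ((z0 : L) - ∑ k ∈ J, (z k : L)) < v (z l : L)) : symb a ∈ onePart v n := by
  classical
  rw [← symb_neg_on a J]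
  set q := J.card with hq
  set ι : Fin q → Fin n := fun i => (J.equivFin.symm i : Fin n) with hι
  have hιi : Function.Injective ι := fun x y h => J.equivFin.symm.injective (Subtype.ext h)
  have hιJ : ∀ i, ι i ∈ J := fun i => (J.equivFin.symm i).2
  refine mem_onePart_of_comp v _ hιi ?_
  set z' : Fin (q + 1) → Lˣ := Fin.cons z0 fun i => -z (ι i) with hz'
  have e1 : (fun l : Fin q => if ι l ∈ J then -a (ι l) else a (ι l)) =
      fun l : Fin q => z' l.succ / z' 0 := by
    funext i
    rw [if_pos (hιJ i), ha _ (hιJ i), hz', Fin.cons_succ, Fin.cons_zero, neg_div]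
  rw [e1]
  have hs : ∑ i, (z' i : L) = (z0 : L) - ∑ k ∈ J, (z k : L) := by
    rw [Fin.sum_univ_succ, hz', Fin.cons_zero, sub_eq_add_neg]
    simp only [Fin.cons_succ, Units.val_neg, Finset.sum_neg_distrib]
    congr 2
    rw [← Finset.sum_coe_sort J (fun k => (z k : L))]
    exact Fintype.sum_equiv J.equivFin.symm _ _ fun i => rfl
  obtain ⟨l0, -, hmax⟩ := Finset.exists_max_image Finset.univ (fun i => v (z' i : L))
    ⟨0, Finset.mem_univ _⟩
  refine mem_onePart_of_sum_lt v z' l0 (fun i => hmax i (Finset.mem_univ i)) ?_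
  rw [hs]
  refine hsum.trans_le ?_
  have h1 := hmax (J.equivFin ⟨l, hl⟩).succ (Finset.mem_univ _)
  have h2 : (z' (J.equivFin ⟨l, hl⟩).succ : L) = -(z l : L) := by
    rw [hz', Fin.cons_succ, Units.val_neg, hι]
    simp only [Equiv.symm_apply_apply]
  rw [h2, Valuation.map_neg] at h1
  exact h1

end Milnor

section Base

variable {K : Type*} [Field K] {d m : ℕ} {c : Fin (m + 1) → Fin (d + 1) → K}
  {a : Fin (m + 1) → K} {L : Type*} [Field L] (F : MvPolynomial (Fin (d + 1)) K →+* L)
  (v : Valuation L ℤᵐ⁰)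

theorem val_const {x : K} (hx : IsIntegral ℤ x) : v (F (MvPolynomial.C x)) ≤ 1 :=
  Pool.Agent.TH826.MK.val_le_one_of_integral v
    (map_isIntegral_int (F.comp MvPolynomial.C) hx)

theorem map_lf_eq {T : Fin (d + 1) → Fin (m + 1)} (hT : (cm c T).det ≠ 0) (e : Fin (m + 1)) :
    F (lf c a e) = ∑ l, F (MvPolynomial.C (al c T e l)) * F (lf c a (T l)) +
      F (MvPolynomial.C (be c a T e)) := by
  conv_lhs => rw [lf_eq (a := a) hT e]
  rw [map_add, map_sum]
  simp only [map_mul]

theorem map_X_eq {T : Fin (d + 1) → Fin (m + 1)} (hT : (cm c T).det ≠ 0) (j : Fin (d + 1)) :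
    F (MvPolynomial.X j) = ∑ i, F (MvPolynomial.C ((cm c T)⁻¹ j i)) *
      (F (lf c a (T i)) + F (MvPolynomial.C (a (T i)))) := by
  conv_lhs => rw [X_eq (a := a) hT j]
  rw [map_sum]
  simp only [map_mul, map_add]

/-- The symbol of a basis of the arrangement lies in `onePart`, or all the coordinates and the forms
are integral. -/
theorem base_ua (hA : UMod c a) {T : Fin (d + 1) → Fin (m + 1)} (hT : (cm c T).det ≠ 0)
    (b : Fin (m + 1) → Lˣ) (hb : ∀ e, (b e : L) = F (lf c a e)) (κ : Fin (d + 1) → Lˣ)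
    (hκ : ∀ k, (κ k : L) = F (MvPolynomial.C (kap c T k))) :
    symb (fun k => κ k * (b (T k) / b (hi c T k))) ∈ onePart v (d + 1) ∨
      ((∀ e, v (F (lf c a e)) ≤ 1) ∧ ∀ j, v (F (MvPolynomial.X j)) ≤ 1) := by
  classical
  have hkap : ∀ k, v (κ k : L) = 1 := by
    intro k
    rw [hκ]
    refine le_antisymm (val_const F v (hA.kap_int T k)) ?_
    have h1 := val_const F v (hA.kap_inv T k)
    have h3 : F (MvPolynomial.C (kap c T k)⁻¹) = (F (MvPolynomial.C (kap c T k)))⁻¹ :=
      map_inv₀ (F.comp MvPolynomial.C) _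
    rw [h3, map_inv₀] at h1
    have h0 : F (MvPolynomial.C (kap c T k)) ≠ 0 := by
      rw [← hκ]
      exact (κ k).ne_zero
    rwa [inv_le_one₀ (by rw [Valuation.pos_iff]; exact h0)] at h1
  set z : Fin (d + 1) → Lˣ := fun k => κ k * b (T k) with hz
  have hzv : ∀ k, (z k : L) = F (MvPolynomial.C (kap c T k)) * F (lf c a (T k)) := by
    intro k
    rw [hz]
    simp only [Units.val_mul, hκ, hb]
  have hvz : ∀ k, v (z k : L) = v (F (lf c a (T k))) := by
    intro k
    rw [hz]
    simp only [Units.val_mul, map_mul, hkap, one_mul, hb]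
  by_cases hB : ∃ k, 1 < v (F (lf c a (T k)))
  · left
    obtain ⟨k1, hk1⟩ := hB
    obtain ⟨k0, hk0, hmax⟩ := Finset.exists_max_image
      (Finset.univ.filter fun k => 1 < v (F (lf c a (T k)))) (fun k => hi c T k)
      ⟨k1, Finset.mem_filter.2 ⟨Finset.mem_univ _, hk1⟩⟩
    have hk0v : 1 < v (F (lf c a (T k0))) := (Finset.mem_filter.1 hk0).2
    set J : Finset (Fin (d + 1)) := Finset.univ.filter fun k => hi c T k = hi c T k0 with hJ
    refine mem_onePart_of_block v _ J z (b (hi c T k0)) (fun k hk => ?_) (l := k0)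
      (Finset.mem_filter.2 ⟨Finset.mem_univ _, rfl⟩) ?_
    · rw [(Finset.mem_filter.1 hk).2, mul_div_assoc]
    · have e1 : (b (hi c T k0) : L) - ∑ k ∈ J, (z k : L) =
          ∑ k ∈ Jᶜ, F (MvPolynomial.C (al c T (hi c T k0) k)) * F (lf c a (T k)) +
            F (MvPolynomial.C (be c a T (hi c T k0))) := by
        rw [hb, map_lf_eq F hT, ← Finset.sum_add_sum_compl J]
        have e2 : ∀ k ∈ J, (z k : L) =
            F (MvPolynomial.C (al c T (hi c T k0) k)) * F (lf c a (T k)) := by
          intro k hk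
          rw [hzv, kap_eq hT, (Finset.mem_filter.1 hk).2]
        rw [Finset.sum_congr rfl e2]
        ring
      rw [e1, hvz]
      refine lt_of_le_of_lt ?_ hk0v
      refine (v.map_add _ _).trans (max_le ?_ (val_const F v (hA.be_int T _)))
      refine Valuation.map_sum_le v fun k hk => ?_
      by_cases hal : al c T (hi c T k0) k = 0
      · rw [hal, map_zero, map_zero, zero_mul, map_zero]
        exact zero_le_one
      · have h1 : hi c T k0 ≤ hi c T k := le_hi_of_al hT hal
        have h2 : hi c T k ≠ hi c T k0 := fun h =>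
          (Finset.mem_compl.1 hk) (Finset.mem_filter.2 ⟨Finset.mem_univ _, h⟩)
        have h3 : ¬ 1 < v (F (lf c a (T k))) := fun h =>
          absurd (hmax k (Finset.mem_filter.2 ⟨Finset.mem_univ _, h⟩))
            (not_le.2 (lt_of_le_of_ne h1 h2.symm))
        rw [map_mul]
        exact mul_le_one' (val_const F v (hA.al_int T _ _)) (not_lt.1 h3)
  · right
    push Not at hB
    have hle : ∀ e, v (F (lf c a e)) ≤ 1 := by
      intro e
      rw [map_lf_eq F hT e]
      refine (v.map_add _ _).trans (max_le ?_ (val_const F v (hA.be_int T _)))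
      refine Valuation.map_sum_le v fun k _ => ?_
      rw [map_mul]
      exact mul_le_one' (val_const F v (hA.al_int T _ _)) (hB k)
    refine ⟨hle, fun j => ?_⟩
    rw [map_X_eq (a := a) F hT j]
    refine Valuation.map_sum_le v fun i _ => ?_
    rw [map_mul]
    refine mul_le_one' (val_const F v (hA.adj_int T _ _)) ?_
    exact (v.map_add _ _).trans (max_le (hle _) (val_const F v (hA.int_a _)))

/-- The values of integral polynomials at integral points. -/
theorem val_poly {g : MvPolynomial (Fin (d + 1)) K} (hg : ∀ k, IsIntegral ℤ (g.coeff k))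
    (hx : ∀ j, v (F (MvPolynomial.X j)) ≤ 1) : v (F g) ≤ 1 := by
  have e : F g = ∑ k ∈ g.support, F (MvPolynomial.C (g.coeff k)) *
      ∏ j, F (MvPolynomial.X j) ^ k j := by
    conv_lhs => rw [MvPolynomial.as_sum g, map_sum]
    refine Finset.sum_congr rfl fun k _ => ?_
    rw [MvPolynomial.monomial_eq, map_mul, Finsupp.prod_fintype _ _ (fun i => pow_zero _), map_prod]
    simp only [map_pow]
  rw [e]
  refine Valuation.map_sum_le v fun k _ => ?_
  rw [map_mul, map_prod]
  refine mul_le_one' (val_const F v (hg k)) (Finset.prod_le_one' fun j _ => ?_)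
  rw [map_pow]
  exact pow_le_one' (hx j) _

/-- The function `λ g ∏_e L_e ^ (w_e + 1)`. -/
theorem base_phi {lam : K} {g : MvPolynomial (Fin (d + 1)) K} {w : Fin (m + 1) → ℕ}
    (hlam : IsIntegral ℤ lam) (hg : ∀ k, IsIntegral ℤ (g.coeff k))
    (hle : ∀ e, v (F (lf c a e)) ≤ 1) (hx : ∀ j, v (F (MvPolynomial.X j)) ≤ 1) :
    v (F (MvPolynomial.C lam * (g * ∏ e, lf c a e ^ (w e + 1)))) ≤ 1 ∧
      (v (F (MvPolynomial.C lam * (g * ∏ e, lf c a e ^ (w e + 1)))) = 1 →
        ∀ e, v (F (lf c a e)) = 1) := by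
  classical
  have h0 : v (F (MvPolynomial.C lam * (g * ∏ e, lf c a e ^ (w e + 1)))) =
      v (F (MvPolynomial.C lam)) * (v (F g) * ∏ e, v (F (lf c a e)) ^ (w e + 1)) := by
    rw [map_mul, map_mul, map_mul, map_mul, map_prod, map_prod]
    simp only [map_pow]
  have hgv := val_poly F v hg hx
  have hp : ∀ s : Finset (Fin (m + 1)), ∏ e ∈ s, v (F (lf c a e)) ^ (w e + 1) ≤ 1 := fun s =>
    Finset.prod_le_one' fun e _ => pow_le_one' (hle e) _
  refine ⟨?_, fun h e => ?_⟩
  · rw [h0]
    exact mul_le_one' (val_const F v hlam) (mul_le_one' hgv (hp _))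
  · refine le_antisymm (hle e) ?_
    rw [← h, h0, ← Finset.mul_prod_erase _ _ (Finset.mem_univ e)]
    have h2 : v (F (lf c a e)) ^ (w e + 1) ≤ v (F (lf c a e)) := by
      rw [pow_succ]
      exact mul_le_of_le_one_left' (pow_le_one' (hle e) _)
    calc v (F (MvPolynomial.C lam)) * (v (F g) * (v (F (lf c a e)) ^ (w e + 1) *
          ∏ x ∈ Finset.univ.erase e, v (F (lf c a x)) ^ (w x + 1)))
        ≤ 1 * (1 * (v (F (lf c a e)) * 1)) :=
          mul_le_mul' (val_const F v hlam) (mul_le_mul' hgv (mul_le_mul' h2 (hp _)))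
      _ = v (F (lf c a e)) := by rw [one_mul, one_mul, mul_one]

end Base

end Pool.Agent.Q16.UF
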