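import Pool.Agent.Q16.BF.Defs
import Pool.Agent.TH577.UA.Alg
set_option autoImplicit false

/-!
The symbols of the bases of an arrangement on the fibrations `p(z) = λ g ∏_e L_e ^ (w_e + 1) z ^ k`.
-/

namespace Pool.Agent.Q16.UF

open Pool.Agent.Q16.BF

open Pool.Agent.TH826.GA (cm ku lf)

open Pool.Agent.TH577.UA (hi kap)

section defs

variable {K : Type*} [Field K] {s d m : ℕ} (p : MvPolynomial (Fin (s + 1)) K)
  (k : Fin (s + 1) → ℕ) (lam : K) (g : MvPolynomial (Fin (d + 1)) K) (w : Fin (m + 1) → ℕ)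
  (c : Fin (m + 1) → Fin (d + 1) → K) (a : Fin (m + 1) → K)

/-- The polynomial `λ g ∏_e L_e ^ (w_e + 1)`. -/
noncomputable def aPhi : MvPolynomial (Fin (d + 1)) K :=
  MvPolynomial.C lam * (g * ∏ e, lf c a e ^ (w e + 1))

theorem lf_dvd_aPhi (e : Fin (m + 1)) : lf c a e ∣ aPhi lam g w c a :=
  Dvd.dvd.mul_left (Dvd.dvd.mul_left ((Dvd.intro_left _ (pow_succ _ _).symm).trans
    (Finset.dvd_prod_of_mem (fun e => lf c a e ^ (w e + 1)) (Finset.mem_univ e))) _) _

/-- The form `L_e` as a unit on the open part. -/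
noncomputable def lu (e : Fin (m + 1)) : (GOpen p k (aPhi lam g w c a))ˣ :=
  ux p k (aPhi lam g w c a) (lf_dvd_aPhi lam g w c a e)

/-- The unit `κ_i L_{T i} / L_{h i}`, where `h i` is the largest index of the forms by which
`L_{T i}` can be replaced such that the linear parts of the forms `T` stay linearly independent, and
`κ_i` is the quotient of the determinants with and without the replacement. -/
noncomputable def aG (T : Fin (d + 1) → Fin (m + 1)) (i : Fin (d + 1)) :
    (GOpen p k (aPhi lam g w c a))ˣ :=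
  Units.map (gcst p k (aPhi lam g w c a) : K →* GOpen p k (aPhi lam g w c a)) (ku (kap c T i)) *
    (lu p k lam g w c a (T i) / lu p k lam g w c a (hi c T i))

/-- The entries `z_0`, `κ_i L_{T i} / L_{h i}`, `i = 0, ..., d`, and `z_1, ..., z_s` of the symbol of
the basis `T`. -/
noncomputable def asym (T : Fin (d + 1) → Fin (m + 1)) :
    Fin (d + 1 + s + 1) → (GOpen p k (aPhi lam g w c a))ˣ :=
  gent p k (aPhi lam g w c a) (aG p k lam g w c a T)

end defs

end Pool.Agent.Q16.UF
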