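import Pool.Agent.Q16.UF.Scale
import Pool.Agent.Q16.UF.Defs
import Pool.Agent.TH577.UA.Final
set_option autoImplicit false

/-!
The tori at the vertices of an arrangement.
-/

namespace Pool.Agent.Q16.UF

open Pool.Agent.Q16.BF

open Pool.Agent.TH826.MK (KQ symb Torus)

open Pool.Agent.TH826.GA (cm al be lf ku coe_ku chg chg_lf lc eval_lf)

open Pool.Agent.TH577.UA (hi kap kap_ne top le_top al_top Distinct exists_al mu stp lead Ix
  lead_same lead_other det_ne_zero_of_tri)

section lin

variable {K : Type*} [Field K] {n : ℕ}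

/-- A linear polynomial with a constant term -/
theorem lexLead_const {α : Fin n → K} {β : K} (hβ : β ≠ 0) :
    LexLead (∑ l, MvPolynomial.C (α l) * MvPolynomial.X l + MvPolynomial.C β) 0 := by
  classical
  have hco : ∀ a : Fin n →₀ ℕ, a ≠ 0 → MvPolynomial.coeff a
      (∑ l, MvPolynomial.C (α l) * MvPolynomial.X l + MvPolynomial.C β) ≠ 0 →
      ∃ l, a = Finsupp.single l 1 := by
    intro a ha h
    rw [MvPolynomial.coeff_add, MvPolynomial.coeff_C, if_neg (Ne.symm ha), add_zero,
      MvPolynomial.coeff_sum] at h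
    obtain ⟨l, -, hl⟩ := Finset.exists_ne_zero_of_sum_ne_zero h
    refine ⟨l, ?_⟩
    rw [MvPolynomial.coeff_C_mul, MvPolynomial.coeff_X'] at hl
    by_contra hne
    rw [if_neg (Ne.symm hne), mul_zero] at hl
    exact hl rfl
  refine ⟨?_, fun a ha ha0 => ?_⟩
  · rw [MvPolynomial.mem_support_iff, MvPolynomial.coeff_add, MvPolynomial.coeff_sum]
    simp only [MvPolynomial.coeff_C_mul, MvPolynomial.coeff_zero_X, mul_zero,
      Finset.sum_const_zero, zero_add, MvPolynomial.coeff_zero_C]
    exact hβ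
  · obtain ⟨l, rfl⟩ := hco a ha0 (MvPolynomial.mem_support_iff.1 ha)
    refine ⟨l, fun j hj => ?_, ?_⟩
    · rw [Finsupp.single_apply, if_neg hj.ne', Finsupp.zero_apply]
    · simp

/-- A linear form -/
theorem lexLead_top {α : Fin n → K} {i : Fin n} (hi : α i ≠ 0) (hmax : ∀ l, α l ≠ 0 → l ≤ i) :
    LexLead (∑ l, MvPolynomial.C (α l) * MvPolynomial.X l + MvPolynomial.C 0)
      (Finsupp.single i 1) := by
  classical
  have hco : ∀ a : Fin n →₀ ℕ, MvPolynomial.coeff a
      (∑ l, MvPolynomial.C (α l) * MvPolynomial.X l + MvPolynomial.C 0) =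
      ∑ l, α l * if Finsupp.single l 1 = a then 1 else 0 := by
    intro a
    rw [MvPolynomial.C_0, add_zero, MvPolynomial.coeff_sum]
    refine Finset.sum_congr rfl fun l _ => ?_
    rw [MvPolynomial.coeff_C_mul, MvPolynomial.coeff_X']
  refine ⟨?_, fun a ha ha0 => ?_⟩
  · rw [MvPolynomial.mem_support_iff, hco, Finset.sum_eq_single i]
    · rw [if_pos rfl, mul_one]
      exact hi
    · intro l _ hl
      rw [if_neg, mul_zero]
      intro h
      exact hl (Finsupp.single_left_injective one_ne_zero h)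
    · intro h
      exact absurd (Finset.mem_univ i) h
  · rw [MvPolynomial.mem_support_iff, hco] at ha
    obtain ⟨l, -, hl⟩ := Finset.exists_ne_zero_of_sum_ne_zero ha
    have hla : Finsupp.single l 1 = a := by
      by_contra hne
      rw [if_neg hne, mul_zero] at hl
      exact hl rfl
    subst hla
    have hαl : α l ≠ 0 := left_ne_zero_of_mul hl
    have hli : l < i := lt_of_le_of_ne (hmax l hαl) fun h => ha0 (by rw [h])
    refine ⟨l, fun j hj => ?_, ?_⟩
    · rw [Finsupp.single_apply, Finsupp.single_apply, if_neg hj.ne', if_neg (hj.trans hli).ne']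
    · rw [Finsupp.single_apply, Finsupp.single_apply, if_neg hli.ne', if_pos rfl]
      exact Nat.zero_lt_one

end lin

section arr

variable {K : Type*} [Field K] {s d m : ℕ} {c : Fin (m + 1) → Fin (d + 1) → K}
  {a : Fin (m + 1) → K}

/-- the exponent of the form `L_e` at the vertex of `T` -/
noncomputable def vE (c : Fin (m + 1) → Fin (d + 1) → K) (a : Fin (m + 1) → K)
    (T : Fin (d + 1) → Fin (m + 1)) (e : Fin (m + 1)) : Fin (d + 1) →₀ ℕ :=
  open Classical in if be c a T e = 0 then Finsupp.single (top c T e) 1 else 0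

theorem lexLead_lf {T : Fin (d + 1) → Fin (m + 1)} (hT : (cm c T).det ≠ 0) (hD : Distinct c a)
    (e : Fin (m + 1)) : LexLead (chg c a T hT (lf c a e)) (vE c a T e) := by
  rw [chg_lf]
  unfold vE
  split_ifs with h
  · rw [h]
    exact lexLead_top (al_top (exists_al hT hD h)) fun l hl => le_top hl
  · exact lexLead_const h

/-- The determinants of the differences of the exponents. -/
theorem det_vE (T p q : Fin (d + 1) → Fin (m + 1)) :
    (Matrix.of fun l j : Fin (d + 1) => (vE c a T (p l) j : ℝ) - vE c a T (q l) j).det =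
      lead c a T p q := by
  classical
  set U : Matrix (Fin (d + 1)) (Fin (d + 1)) ℝ := Matrix.of fun i j => if i ≤ j then 1 else 0
    with hU
  have hUdet : U.det = 1 := by
    rw [Matrix.det_of_isUpperTriangular]
    · refine Finset.prod_eq_one fun i _ => ?_
      rw [hU, Matrix.of_apply, if_pos le_rfl]
    · intro i j hij
      have hij' : j < i := hij
      rw [hU, Matrix.of_apply, if_neg (not_le.2 hij')]
  have hmu : ∀ e j, ∑ i, (vE c a T e i : ℝ) * U i j = mu c a T e j := by
    intro e j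
    unfold vE mu
    split_ifs with h
    · rw [Finset.sum_eq_single (top c T e)]
      · rw [Finsupp.single_eq_same, hU, Matrix.of_apply]
        unfold stp
        split_ifs <;> simp
      · intro i _ hi
        rw [Finsupp.single_apply, if_neg (Ne.symm hi)]
        simp
      · intro h
        exact absurd (Finset.mem_univ _) h
    · simp
  have h1 : (Matrix.of fun l j : Fin (d + 1) => (mu c a T (p l) j : ℝ) - mu c a T (q l) j) =
      (Matrix.of fun l j : Fin (d + 1) => (vE c a T (p l) j : ℝ) - vE c a T (q l) j) * U := by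
    ext l j
    rw [Matrix.mul_apply, Matrix.of_apply]
    simp only [Matrix.of_apply, sub_mul, Finset.sum_sub_distrib, hmu]
  unfold lead
  rw [h1, Matrix.det_mul, hUdet, mul_one]

variable {p : MvPolynomial (Fin (s + 1)) K} {k : Fin (s + 1) → ℕ}
  {g : MvPolynomial (Fin (d + 1)) K} {w : Fin (m + 1) → ℕ}

theorem lf_ne_zero {T : Fin (d + 1) → Fin (m + 1)} (hT : (cm c T).det ≠ 0) (hD : Distinct c a)
    (e : Fin (m + 1)) : lf c a e ≠ 0 := by
  intro h
  have h1 := (lexLead_lf hT hD e).1
  rw [h, map_zero] at h1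
  simp at h1

/-- The tori and the regulators of the symbols of the bases in `Ix`. -/
theorem exists_tori_ua (σ : K →+* ℂ) (hdeg : p.degreeOf 0 = k 0 + 1) (hD : Distinct c a)
    (hg : g ≠ 0) :
    ∃ C : ℝ, 1 ≤ C ∧ ∀ lam : K, C ≤ ‖σ lam‖ →
      ∃ Γ : Ix c a → Torus (GOpen p k (aPhi lam g w c a)) (d + 1 + s),
        (∀ T θ x, (Γ T).e θ (gcst p k (aPhi lam g w c a) x) = σ x) ∧
        (Matrix.of fun T T' : Ix c a =>
          (Γ T).reg (symb (asym p k lam g w c a T'.1))).det ≠ 0 := by
  classical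
  set φ : MvPolynomial (Fin (d + 1)) K := g * ∏ e, lf c a e ^ (w e + 1) with hφ
  have hφ0 : ∀ T : Ix c a, φ ≠ 0 := fun T => mul_ne_zero hg
    (Finset.prod_ne_zero_iff.2 fun e _ => pow_ne_zero _ (lf_ne_zero T.2.2.1 hD e))
  have hex : ∀ T : Ix c a, ∃ o, LexLead (chg c a T.1 T.2.2.1 φ) o := fun T =>
    exists_lexLead ((map_ne_zero_iff _ (chg c a T.1 T.2.2.1).injective).2 (hφ0 T))
  choose o ho using hex
  have hdd : ∀ T : Ix c a, ∀ T' : Ix c a, (Matrix.of fun l j : Fin (d + 1) =>
      (vE c a T.1 (T'.1 l) j : ℝ) - vE c a T.1 (hi c T'.1 l) j).det =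
      lead c a T.1 T'.1 (hi c T'.1) := fun T T' => det_vE T.1 T'.1 (hi c T'.1)
  refine exists_tori_gen (n := d + 1) σ hdeg (φ := φ)
    (U := fun (T' : Ix c a) l x => σ (kap c T'.1 l) *
      (MvPolynomial.eval₂ σ x (lf c a (T'.1 l)) *
        (MvPolynomial.eval₂ σ x (lf c a (hi c T'.1 l)))⁻¹))
    (o := fun T j => (o T j : ℝ))
    (R := fun T T' l j => (vE c a T.1 (T'.1 l) j : ℝ) - vE c a T.1 (hi c T'.1 l) j)
    (fun T δ hδ => exists_base_lex σ (chg c a T.1 T.2.2.1 :
        MvPolynomial (Fin (d + 1)) K →ₐ[K] MvPolynomial (Fin (d + 1)) K) (ho T)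
      (fun (T' : Ix c a) l => lf c a (T'.1 l)) (fun T' l => lf c a (hi c T'.1 l))
      (fun T' l => kap c T'.1 l) (fun T' l => kap_ne T'.2.2.1 l) _ _
      (fun T' l => lexLead_lf T.2.2.1 hD _) (fun T' l => lexLead_lf T.2.2.1 hD _) hδ) ?_
    (fun lam (T' : Ix c a) l => aG p k lam g w c a T'.1 l) ?_
  · simp only [hdd]
    refine det_ne_zero_of_tri (fun T : Ix c a => ∑ l, (T.1 l : ℕ)) _ (fun T => ?_)
      (fun T T' h => ?_)
    · rw [Matrix.of_apply]
      exact lead_same T.2
    · rw [Matrix.of_apply] at h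
      rcases lead_other T.2 T'.2 h with h1 | h1
      · exact Or.inl (Subtype.ext h1)
      · exact Or.inr h1
  · intro lam T' l z x h
    change GPt σ p k (aPhi lam g w c a) z x at h
    have hL : ∀ e, h.evA (lu p k lam g w c a e : GOpen p k (aPhi lam g w c a)) =
        MvPolynomial.eval₂ σ x (lf c a e) := fun e => by
      unfold lu
      rw [coe_ux, h.evA_xpol]
    have hκ : h.evA ((Units.map (gcst p k (aPhi lam g w c a) : K →* GOpen p k (aPhi lam g w c a))
        (ku (kap c T'.1 l)) : (GOpen p k (aPhi lam g w c a))ˣ) : GOpen p k (aPhi lam g w c a)) =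
        σ (kap c T'.1 l) := by
      show h.evA (gcst p k (aPhi lam g w c a) (ku (kap c T'.1 l) : K)) = _
      rw [coe_ku (kap_ne T'.2.2.1 l), h.evA_gcst]
    have hq : h.evA ((lu p k lam g w c a (T'.1 l) / lu p k lam g w c a (hi c T'.1 l) :
        (GOpen p k (aPhi lam g w c a))ˣ) : GOpen p k (aPhi lam g w c a)) =
        MvPolynomial.eval₂ σ x (lf c a (T'.1 l)) *
          (MvPolynomial.eval₂ σ x (lf c a (hi c T'.1 l)))⁻¹ := by
      have h1 : ((lu p k lam g w c a (T'.1 l) / lu p k lam g w c a (hi c T'.1 l) :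
          (GOpen p k (aPhi lam g w c a))ˣ) : GOpen p k (aPhi lam g w c a)) *
          (lu p k lam g w c a (hi c T'.1 l) : GOpen p k (aPhi lam g w c a)) =
          (lu p k lam g w c a (T'.1 l) : GOpen p k (aPhi lam g w c a)) := by
        rw [← Units.val_mul, div_mul_cancel]
      have h2 := congrArg h.evA h1
      rw [map_mul, hL, hL] at h2
      have hne : MvPolynomial.eval₂ σ x (lf c a (hi c T'.1 l)) ≠ 0 := by
        rw [← hL]
        exact ((lu p k lam g w c a (hi c T'.1 l)).isUnit.map h.evA).ne_zero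
      rw [← div_eq_mul_inv]
      exact eq_div_of_mul_eq hne h2
    have hfin : h.evA (aG p k lam g w c a T'.1 l : GOpen p k (aPhi lam g w c a)) =
        σ (kap c T'.1 l) * (MvPolynomial.eval₂ σ x (lf c a (T'.1 l)) *
          (MvPolynomial.eval₂ σ x (lf c a (hi c T'.1 l)))⁻¹) := by
      unfold aG
      rw [Units.val_mul, map_mul, hκ, hq]
    exact hfin

end arr

end Pool.Agent.Q16.UF
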