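import Pool.Agent.Q16.BF.Crit
import Pool.Agent.Q16.BF.Smooth
set_option autoImplicit false

/-!
The critical values of a polynomial are finite in number, and the smoothness of the open parts of
the hypersurfaces `p(z) = λ φ(x) z ^ k`.
-/

namespace Pool.Agent.Q16.UF

open Pool.Agent.Q16.BF MvPolynomial

theorem exists_const_aux' {N : ℕ} (p : MvPolynomial (Fin N) ℂ) {L : Type}
    [Field L] [Algebra ℂ L] [Algebra.EssFiniteType ℂ L] (g : MvPolynomial (Fin N) ℂ →ₐ[ℂ] L)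
    (hp : ∀ i, g (pderiv i p) = 0) : ∃ c : ℂ, g p = algebraMap ℂ L c := by
  let _ : Algebra (MvPolynomial (Fin N) ℂ) L := g.toRingHom.toAlgebra
  have : IsScalarTower ℂ (MvPolynomial (Fin N) ℂ) L :=
    IsScalarTower.of_algebraMap_eq fun x => (g.commutes x).symm
  have hD : KaehlerDifferential.D ℂ L (g p) =
      ∑ i, g (pderiv i p) • KaehlerDifferential.D ℂ L (g (X i)) :=
    derivation_eq_sum ((KaehlerDifferential.D ℂ L).compAlgebraMap (MvPolynomial (Fin N) ℂ)) p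
  have hDt : KaehlerDifferential.D ℂ L (g p) = 0 := by
    rw [hD]
    exact Finset.sum_eq_zero fun i _ => by rw [hp, zero_smul]
  have halg : IsAlgebraic ℂ (g p) := by
    by_contra h
    exact D_ne_zero h hDt
  obtain ⟨c, hc⟩ : ∃ c : ℂ, algebraMap ℂ L c = g p :=
    minpoly.mem_range_of_degree_eq_one ℂ (g p)
      (IsAlgClosed.degree_eq_one_of_irreducible ℂ (minpoly.irreducible halg.isIntegral))
  exact ⟨c, hc.symm⟩

theorem exists_const' {N : ℕ} (p : MvPolynomial (Fin N) ℂ)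
    (P : Ideal (MvPolynomial (Fin N) ℂ)) [P.IsPrime] (hI : ∀ i, pderiv i p ∈ P) :
    ∃ c : ℂ, p - C c ∈ P := by
  let A := MvPolynomial (Fin N) ℂ ⧸ P
  let L := FractionRing A
  let g : MvPolynomial (Fin N) ℂ →ₐ[ℂ] L :=
    (IsScalarTower.toAlgHom ℂ A L).comp (Ideal.Quotient.mkₐ ℂ P)
  have hg0 : ∀ q, g q = 0 ↔ q ∈ P := by
    intro q
    have h1 : g q = algebraMap A L (Ideal.Quotient.mk P q) := rfl
    rw [h1, map_eq_zero_iff _ (IsFractionRing.injective A L), Ideal.Quotient.eq_zero_iff_mem]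
  have : Algebra.EssFiniteType A L := Algebra.EssFiniteType.of_isLocalization _ (nonZeroDivisors A)
  have : Algebra.EssFiniteType ℂ L := Algebra.EssFiniteType.comp ℂ A L
  obtain ⟨c, hc⟩ := exists_const_aux' p g fun i => (hg0 _).2 (hI i)
  refine ⟨c, (hg0 _).1 ?_⟩
  rw [map_sub, ← MvPolynomial.algebraMap_eq, g.commutes, hc, sub_self]

/-- The set of the critical values of a polynomial is finite. -/
theorem finite_crit' {N : ℕ} (p : MvPolynomial (Fin N) ℂ) :
    {w : ℂ | ∃ z : Fin N → ℂ, eval z p = w ∧ ∀ i, eval z (pderiv i p) = 0}.Finite := by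
  classical
  let I : Ideal (MvPolynomial (Fin N) ℂ) := Ideal.span (Set.range fun i => pderiv i p)
  have hfin : I.minimalPrimes.Finite := Ideal.finite_minimalPrimes_of_isNoetherianRing _ I
  have hex : ∀ P : Ideal (MvPolynomial (Fin N) ℂ), P ∈ I.minimalPrimes →
      ∃ c : ℂ, p - C c ∈ P := by
    intro P hP
    have := hP.1.1
    exact exists_const' p P fun i => hP.1.2 (Ideal.subset_span ⟨i, rfl⟩)
  choose! f hf using hex
  refine (hfin.image f).subset ?_
  rintro w ⟨z, h1, h2⟩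
  have hker : (RingHom.ker (eval z)).IsPrime := RingHom.ker_isPrime _
  have hI : I ≤ RingHom.ker (eval z) := by
    rw [Ideal.span_le]
    rintro _ ⟨i, rfl⟩
    exact h2 i
  obtain ⟨P, hP, hPz⟩ := Ideal.exists_minimalPrimes_le hI
  refine ⟨P, hP, ?_⟩
  have h3 := hPz (hf P hP)
  rw [RingHom.mem_ker, map_sub, eval_C, sub_eq_zero, h1] at h3
  exact h3.symm

variable {K : Type*} [Field K] {s n : ℕ}

/-- The open parts are smooth for large `λ`. -/
theorem exists_smoothOpen' (p : MvPolynomial (Fin (s + 1)) K) (k : Fin (s + 1) → ℕ)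
    (φ : MvPolynomial (Fin n) K) (σ : K →+* ℂ) :
    ∃ C : ℝ, ∀ lam : K, C ≤ ‖σ lam‖ → SmoothOpen p k (MvPolynomial.C lam * φ) σ := by
  have hfin := finite_critVals (MvPolynomial.map σ p) k
  obtain ⟨B, hB⟩ : ∃ B : ℝ, ∀ w ∈ critVals (MvPolynomial.map σ p) k, ‖w‖ ≤ B := by
    obtain ⟨B, hB⟩ := (hfin.image fun w => ‖w‖).bddAbove
    exact ⟨B, fun w hw => hB ⟨w, hw, rfl⟩⟩
  have hfin' := finite_crit' (MvPolynomial.map σ φ)
  obtain ⟨b, hb0, hb⟩ : ∃ b : ℝ, 0 < b ∧ ∀ w : ℂ, w ≠ 0 → (∃ z : Fin n → ℂ,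
      eval z (MvPolynomial.map σ φ) = w ∧
      ∀ i, eval z (pderiv i (MvPolynomial.map σ φ)) = 0) → b ≤ ‖w‖ := by
    obtain ⟨B', hB'⟩ := (hfin'.image fun w => ‖w‖⁻¹).bddAbove
    refine ⟨(|B'| + 1)⁻¹, by positivity, fun w hw hz => ?_⟩
    have h1 : ‖w‖⁻¹ ≤ B' := hB' ⟨w, hz, rfl⟩
    have h2 : 0 < ‖w‖ := norm_pos_iff.2 hw
    rw [inv_le_comm₀ (by positivity) h2]
    exact h1.trans ((le_abs_self _).trans (by linarith))
  refine ⟨(|B| + 1) / b, fun lam hlam z x h => ?_⟩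
  by_contra hcon
  push Not at hcon
  set w : ℂ := eval₂ σ x (MvPolynomial.C lam * φ) with hw
  have hwe : w = σ lam * eval x (MvPolynomial.map σ φ) := by
    rw [hw, eval₂_mul, eval₂_C, eval_map]
  have hcr : w ∈ critVals (MvPolynomial.map σ p) k := by
    refine ⟨z, h.hz, ?_, fun i => ?_⟩
    · rw [eval_map, h.eq]
    · have h1 := eval_pderiv_inl (p := p) (k := k) (Φ := MvPolynomial.C lam * φ) σ z x i
      rw [hcon, mul_zero] at h1
      rw [pderiv_map, eval_map, eval_map, h.eq, ← sub_eq_zero]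
      linear_combination -h1
  have hlam0 : 0 < ‖σ lam‖ := lt_of_lt_of_le (by positivity) hlam
  have hl0 : σ lam ≠ 0 := norm_pos_iff.1 hlam0
  have hx : ∀ i, eval x (pderiv i (MvPolynomial.map σ φ)) = 0 := by
    intro j
    have h3 := eval_pderiv_inr (p := p) (k := k) (Φ := MvPolynomial.C lam * φ) σ z x j
    rw [hcon, pderiv_C_mul, eval₂_mul, eval₂_C] at h3
    have h4 := (mul_eq_zero.1 (neg_eq_zero.1 h3.symm)).resolve_right
      (Finset.prod_ne_zero_iff.2 fun i _ => pow_ne_zero _ (h.hz i))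
    have h5 := (mul_eq_zero.1 h4).resolve_left hl0
    rw [pderiv_map, eval_map]
    exact h5
  have hne : eval x (MvPolynomial.map σ φ) ≠ 0 := by
    intro h0
    apply h.hPhi
    rw [← hw, hwe, h0, mul_zero]
  have h6 := hb _ hne ⟨x, rfl, hx⟩
  have h7 := hB w hcr
  rw [hwe, norm_mul] at h7
  have h8 : |B| + 1 ≤ ‖σ lam‖ * b := by rwa [div_le_iff₀ hb0] at hlam
  have h9 : ‖σ lam‖ * b ≤ ‖σ lam‖ * ‖eval x (MvPolynomial.map σ φ)‖ :=
    mul_le_mul_of_nonneg_left h6 hlam0.le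
  linarith [le_abs_self B]

end Pool.Agent.Q16.UF
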