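import Pool.Agent.Q16.UF.Arr
import Pool.Agent.Q16.UF.CritA
set_option autoImplicit false

/-!
The function `Φ z_0 ... z_s` is not zero; the product of the forms is not constant.
-/

namespace Pool.Agent.Q16.UF

open Pool.Agent.Q16.BF

open Pool.Agent.TH826.GA (cm al be lf vtx)

open Pool.Agent.TH577.UA (Distinct)

variable {K : Type*} [Field K] {s n d m : ℕ}

theorem exists_gdel_ne (σ : K →+* ℂ) {p : MvPolynomial (Fin (s + 1)) K} {k : Fin (s + 1) → ℕ}
    (hdeg : p.degreeOf 0 = k 0 + 1) {φ : MvPolynomial (Fin n) K} (hφ : φ ≠ 0) :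
    ∃ C : ℝ, ∀ lam : K, C ≤ ‖σ lam‖ → gdel p k (MvPolynomial.C lam * φ) ≠ 0 := by
  obtain ⟨o, ho⟩ := exists_lexLead hφ
  obtain ⟨C, -, h⟩ := exists_torus_gen (ι := Empty) σ hdeg (φ := φ)
    (U := fun i _ _ => i.elim) (o := fun j => (o j : ℝ)) (R := fun i _ _ => i.elim)
    (fun δ hδ => by
      obtain ⟨C1, X, hX⟩ := exists_base_lex (ι := Empty) σ (AlgHom.id K _) (φ := φ) (o := o) ho
        (fun i _ => i.elim) (fun i _ => i.elim) (fun i _ => i.elim) (fun i _ => i.elim)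
        (fun i _ => i.elim) (fun i _ => i.elim) (fun i _ => i.elim) (fun i _ => i.elim) hδ
      exact ⟨C1, X, ⟨hX.smooth, hX.periodic, hX.good, hX.log_le, hX.lw_le, fun i => i.elim,
        fun i => i.elim, fun i => i.elim⟩⟩)
    (fun lam i _ => i.elim) (fun lam i => i.elim) (ε := 1) one_pos
  refine ⟨C, fun lam hlam => ?_⟩
  obtain ⟨Γ, -, -⟩ := h lam hlam
  exact gdel_ne_zero (Γ.e 0)

theorem aPhi_ne_C {c : Fin (m + 1) → Fin (d + 1) → K} {a : Fin (m + 1) → K}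
    {T : Fin (d + 1) → Fin (m + 1)} (hT : (cm c T).det ≠ 0) (hD : Distinct c a)
    {g : MvPolynomial (Fin (d + 1)) K} (hg : g ≠ 0) {w : Fin (m + 1) → ℕ} {lam : K}
    (hlam : lam ≠ 0) (y : K) : aPhi lam g w c a ≠ MvPolynomial.C y := by
  intro h
  have h0 : aPhi lam g w c a ≠ 0 := by
    unfold aPhi
    refine mul_ne_zero (by rwa [Ne, MvPolynomial.C_eq_zero]) (mul_ne_zero hg ?_)
    exact Finset.prod_ne_zero_iff.2 fun e _ => pow_ne_zero _ (lf_ne_zero hT hD e)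
  obtain ⟨q, hq⟩ := lf_dvd_aPhi lam g w c a (T 0)
  have h1 : MvPolynomial.eval (vtx c a T) (lf c a (T 0)) = 0 := by
    have h2 := Pool.Agent.TH826.GA.eval_vtx (c := c) (a := a) T (T 0)
    have h3 : ∑ l, al c T (T 0) l * a (T l) - a (T 0) = 0 :=
      Pool.Agent.TH826.GA.be_T T hT 0
    unfold lf
    rw [map_sub, map_sum, MvPolynomial.eval_C]
    simp only [map_mul, MvPolynomial.eval_C, MvPolynomial.eval_X]
    rw [h2, h3]
  have h4 : MvPolynomial.eval (vtx c a T) (aPhi lam g w c a) = 0 := by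
    rw [hq, map_mul, h1, zero_mul]
  rw [h, MvPolynomial.eval_C] at h4
  rw [h, h4, MvPolynomial.C_0] at h0
  exact h0 rfl

end Pool.Agent.Q16.UF
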