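import Pool.Agent.Q16.UF.Defs
import Pool.Agent.Q16.UF.Base
import Pool.Agent.Q16.BF.Unram
set_option autoImplicit false

/-!
The symbols of the bases of an arrangement are unramified.
-/

namespace Pool.Agent.Q16.UF

open scoped WithZero

open Pool.Agent.Q16.BF

open Pool.Agent.TH826.MK (KQ symb Unramified unitPart)

open Pool.Agent.TH826.EF (onePart)

open Pool.Agent.TH826.GA (cm ku coe_ku lf)

open Pool.Agent.TH577.UA (hi kap kap_ne UMod)

variable {K : Type*} [Field K] {s d m : ℕ} {p : MvPolynomial (Fin (s + 1)) K}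
  {k : Fin (s + 1) → ℕ} {lam : K} {g : MvPolynomial (Fin (d + 1)) K} {w : Fin (m + 1) → ℕ}
  {c : Fin (m + 1) → Fin (d + 1) → K} {a : Fin (m + 1) → K}
  {L : Type*} [Field L] (f : GOpen p k (aPhi lam g w c a) →+* L)

theorem asym_mem_unitPart (hp : IsSplitPoly p) (hint : Interior p k) (hlam : IsIntegral ℤ lam)
    (hg : ∀ k, IsIntegral ℤ (g.coeff k)) (hA : UMod c a) (v : Valuation L ℤᵐ⁰)
    {T : Fin (d + 1) → Fin (m + 1)} (hT : (cm c T).det ≠ 0) :
    symb (fun l => Units.map (f : GOpen p k (aPhi lam g w c a) →* L)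
      (asym p k lam g w c a T l)) ∈ unitPart v (d + 1 + s + 1) := by
  set F : MvPolynomial (Fin (d + 1)) K →+* L := f.comp (xpol p k (aPhi lam g w c a)) with hF
  set b : Fin (m + 1) → Lˣ := fun e =>
    Units.map (f : GOpen p k (aPhi lam g w c a) →* L) (lu p k lam g w c a e) with hb
  have hbv : ∀ e, (b e : L) = F (lf c a e) := fun e => rfl
  set κ : Fin (d + 1) → Lˣ := fun i => Units.map (f : GOpen p k (aPhi lam g w c a) →* L)
    (Units.map (gcst p k (aPhi lam g w c a) : K →* GOpen p k (aPhi lam g w c a))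
      (ku (kap c T i))) with hκ
  have hκv : ∀ i, (κ i : L) = F (MvPolynomial.C (kap c T i)) := by
    intro i
    show f (gcst p k (aPhi lam g w c a) (ku (kap c T i) : K)) = _
    rw [coe_ku (kap_ne hT i)]
    rfl
  have hent : ∀ i, Units.map (f : GOpen p k (aPhi lam g w c a) →* L) (aG p k lam g w c a T i) =
      κ i * (b (T i) / b (hi c T i)) := by
    intro i
    unfold aG
    rw [map_mul, map_div]
  refine symb_mem_unitPart f hp hint v _ ?_
  rcases base_ua F v hA hT b hbv κ hκv with h | ⟨h1, h2⟩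
  · left
    simp only [hent]
    exact h
  · right
    obtain ⟨h3, h4⟩ := base_phi F v (w := w) hlam hg h1 h2
    refine ⟨h3, fun h5 j => ?_⟩
    have h6 := h4 h5
    have h7 : v (κ j : L) = 1 := by
      rw [hκv]
      refine le_antisymm (val_const F v (hA.kap_int T j)) ?_
      have h1 := val_const F v (hA.kap_inv T j)
      have h3 : F (MvPolynomial.C (kap c T j)⁻¹) = (F (MvPolynomial.C (kap c T j)))⁻¹ :=
        map_inv₀ (F.comp MvPolynomial.C) _
      rw [h3, map_inv₀] at h1
      have h0 : F (MvPolynomial.C (kap c T j)) ≠ 0 := by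
        rw [← hκv]
        exact (κ j).ne_zero
      rwa [inv_le_one₀ (by rw [Valuation.pos_iff]; exact h0)] at h1
    have h8 : f (aG p k lam g w c a T j : GOpen p k (aPhi lam g w c a)) =
        ((κ j * (b (T j) / b (hi c T j)) : Lˣ) : L) := by
      rw [← hent]
      rfl
    rw [h8, Units.val_mul, Units.val_div_eq_div_val, map_mul, map_div₀, h7, hbv, hbv, h6, h6]
    simp

/-- The symbols of the bases are unramified. -/
theorem asym_unramified (hp : IsSplitPoly p) (hint : Interior p k) (hlam : IsIntegral ℤ lam)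
    (hg : ∀ k, IsIntegral ℤ (g.coeff k)) (hA : UMod c a)
    {T : Fin (d + 1) → Fin (m + 1)} (hT : (cm c T).det ≠ 0) :
    KQ.map (d + 1 + s + 1) f (symb (asym p k lam g w c a T)) ∈ Unramified L (d + 1 + s + 1) := by
  rw [KQ.map_symb]
  unfold Unramified
  simp only [Submodule.mem_iInf]
  intro v _
  exact asym_mem_unitPart f hp hint hlam hg hA v hT

end Pool.Agent.Q16.UF
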